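import Pool.Agent.V1192.SemiAmen

/-!
# MP_b29958_an: complemented ideals in approximately semi-amenable Banach algebras

A complemented ideal of an approximately semi-amenable Banach algebra is approximately
semi-amenable. The proof passes through a characterisation of approximate semi-amenability by
identities for finite families of bilinear forms (`ASA.crit` and `asa_of_crit`).
-/

open Filter Topology Pool.Agent.V1192.SemiAmen

namespace Pool.Agent.Results.MP_b29958_an.ComplementedIdeal

universe u

noncomputable section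

variable {A : Type u} [NonUnitalNormedRing A] [NormedSpace ℂ A] [IsScalarTower ℂ A A]
  [SMulCommClass ℂ A A]

variable (J : NonUnitalSubalgebra ℂ A)

omit [IsScalarTower ℂ A A] [SMulCommClass ℂ A A] in
/-- A subalgebra as a normed space, with the norm of `A`. -/
instance instNS : NormedSpace ℂ J where
  norm_smul_le c x := norm_smul_le c (x : A)

omit [IsScalarTower ℂ A A] [SMulCommClass ℂ A A] in
/-- The inclusion of `J` in `A`. -/
def incl : J →L[ℂ] A :=
  { toFun := Subtype.val
    map_add' := fun _ _ => rfl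
    map_smul' := fun _ _ => rfl
    cont := continuous_subtype_val }

omit [IsScalarTower ℂ A A] [SMulCommClass ℂ A A] in
theorem incl_apply (x : J) : incl J x = x := rfl

variable {J}

omit [IsScalarTower ℂ A A] [SMulCommClass ℂ A A] in
/-- The projection on `J` as an operator on `A`. -/
def QQ (P : A →L[ℂ] J) : A →L[ℂ] A := (incl J).comp P

omit [IsScalarTower ℂ A A] [SMulCommClass ℂ A A] in
theorem QQ_apply (P : A →L[ℂ] J) (x : A) : QQ P x = (P x : A) := rfl

/-- The bilinear form `f (x * y)`. -/
def mulForm (f : StrongDual ℂ A) : A →L[ℂ] A →L[ℂ] ℂ :=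
  ((ContinuousLinearMap.compL ℂ A A ℂ) f).comp (ContinuousLinearMap.mul ℂ A)

theorem mulForm_apply (f : StrongDual ℂ A) (x y : A) : mulForm f x y = f (x * y) := rfl

theorem rai_J (hA : ASA A) (hl : ∀ a, ∀ x ∈ J, a * x ∈ J)
    (P : A →L[ℂ] J) (hP : ∀ x : J, P x = x) {ι : Type*} [Fintype ι] (a : ι → J)
    {ε : ℝ} (hε : 0 < ε) : ∃ u : J, ∀ i, ‖a i - a i * u‖ < ε := by
  have hP' : ∀ x, ∀ h : x ∈ J, P x = ⟨x, h⟩ := fun x h => hP ⟨x, h⟩
  let T : J →ₗ[ℂ] (ι → J) :=
    { toFun := fun u i => a i * u
      map_add' := fun u v => by funext i; exact mul_add _ _ _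
      map_smul' := fun c u => by
        funext i; apply Subtype.ext; exact mul_smul_comm c (a i : A) (u : A) }
  refine approx_of_dual_pi T a (fun f hf => ?_) hε
  have key := hA.crit (fun i => (a i : A))
    (fun i => ((ContinuousLinearMap.compL ℂ A A ℂ).flip (QQ P)).comp (mulForm ((f i).comp P)))
    (fun i => (f i).comp P) (fun x y => ?_) (fun x y => ?_)
  · have h1 : ∀ i, ((f i).comp P) (a i : A) = f i (a i) := by
      intro i
      change f i (P (a i : A)) = _
      rw [hP]
    simpa only [h1] using key
  · change ∑ i, f i (P ((a i : A) * x * (P y : A))) = 0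
    have h2 : ∀ i, P ((a i : A) * x * (P y : A)) = a i * ⟨x * (P y : A), hl x _ (P y).2⟩ := by
      intro i
      rw [mul_assoc]
      exact hP (a i * ⟨x * (P y : A), hl x _ (P y).2⟩)
    simp only [h2]
    exact hf _
  · change ∑ i, f i (P (x * (P (y * (a i : A)) : A))) = ∑ i, f i (P (x * y * (a i : A)))
    refine Finset.sum_congr rfl (fun i _ => ?_)
    rw [hP' (y * (a i : A)) (hl y _ (a i).2), mul_assoc]

theorem lai_J (hA : ASA A) (hr : ∀ a, ∀ x ∈ J, x * a ∈ J)
    (P : A →L[ℂ] J) (hP : ∀ x : J, P x = x) {ι : Type*} [Fintype ι] (a : ι → J)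
    {ε : ℝ} (hε : 0 < ε) : ∃ u : J, ∀ i, ‖a i - u * a i‖ < ε := by
  have hP' : ∀ x, ∀ h : x ∈ J, P x = ⟨x, h⟩ := fun x h => hP ⟨x, h⟩
  let T : J →ₗ[ℂ] (ι → J) :=
    { toFun := fun u i => u * a i
      map_add' := fun u v => by funext i; exact add_mul _ _ _
      map_smul' := fun c u => by
        funext i; apply Subtype.ext; exact smul_mul_assoc c (u : A) (a i : A) }
  refine approx_of_dual_pi T a (fun f hf => ?_) hε
  have key := hA.crit' (fun i => (a i : A))
    (fun i => (mulForm ((f i).comp P)).comp (QQ P)) (fun i => 0)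
    (fun i => (f i).comp P) (fun x y => ?_) (fun x y => ?_)
  · have h1 : ∀ i, ((f i).comp P) (a i : A) = f i (a i) := by
      intro i
      change f i (P (a i : A)) = _
      rw [hP]
    simp only [h1, zero_apply, Finset.sum_const_zero] at key
    exact key.symm
  · change ∑ i, f i (P ((P ((a i : A) * x) : A) * y)) = ∑ i, f i (P ((a i : A) * x * y))
    refine Finset.sum_congr rfl (fun i _ => ?_)
    rw [hP' ((a i : A) * x) (hr x _ (a i).2)]
  · change ∑ i, f i (P ((P x : A) * (y * (a i : A)))) = ∑ i, (0 : ℂ)
    rw [Finset.sum_const_zero]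
    have h2 : ∀ i, P ((P x : A) * (y * (a i : A))) = ⟨(P x : A) * y, hr y _ (P x).2⟩ * a i := by
      intro i
      rw [← mul_assoc]
      exact hP (⟨(P x : A) * y, hr y _ (P x).2⟩ * a i)
    simp only [h2]
    exact hf _

/-- **MP_b29958_an, Q1, proved.** A complemented ideal of an approximately semi-amenable Banach
algebra is approximately semi-amenable. -/
theorem result (A : Type u) [NonUnitalNormedRing A] [NormedSpace ℂ A] [IsScalarTower ℂ A A]
    [SMulCommClass ℂ A A] [CompleteSpace A] (hA : ASA A) (J : NonUnitalSubalgebra ℂ A)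
    (hl : ∀ a, ∀ x ∈ J, a * x ∈ J) (hr : ∀ a, ∀ x ∈ J, x * a ∈ J)
    (P : A →L[ℂ] J) (hP : ∀ x : J, P x = x) : ASA J := by
  have hP' : ∀ x, ∀ h : x ∈ J, P x = ⟨x, h⟩ := fun x h => hP ⟨x, h⟩
  refine asa_of_crit (fun ι _ a β lam h1 h2 => ?_)
  -- approximate identities
  have hR : ∀ n : ℕ, ∃ u : J, ∀ i, ‖a i - a i * u‖ < 1 / ((n : ℝ) + 1) :=
    fun n => rai_J hA hl P hP a (by positivity)
  have hL : ∀ n : ℕ, ∃ u : J, ∀ i, ‖a i - u * a i‖ < 1 / ((n : ℝ) + 1) :=
    fun n => lai_J hA hr P hP a (by positivity)
  choose u hu using hR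
  choose v hv using hL
  have hu' : ∀ i, Tendsto (fun n => a i * u n) atTop (𝓝 (a i)) := by
    intro i
    rw [tendsto_iff_norm_sub_tendsto_zero]
    refine squeeze_zero (fun n => norm_nonneg _) (fun n => ?_)
      (tendsto_one_div_add_atTop_nhds_zero_nat (𝕜 := ℝ))
    rw [norm_sub_rev]; exact (hu n i).le
  have hv' : ∀ i, Tendsto (fun n => v n * a i) atTop (𝓝 (a i)) := by
    intro i
    rw [tendsto_iff_norm_sub_tendsto_zero]
    refine squeeze_zero (fun n => norm_nonneg _) (fun n => ?_)
      (tendsto_one_div_add_atTop_nhds_zero_nat (𝕜 := ℝ))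
    rw [norm_sub_rev]; exact (hv n i).le
  -- multiplication by an element of `A`, as operators on `J`
  let mr : A → J → J := fun x j => ⟨j * x, hr x _ j.2⟩
  let ml : A → J → J := fun x j => ⟨x * j, hl x _ j.2⟩
  have hmr : ∀ x, Continuous (mr x) := fun x => by
    apply Continuous.subtype_mk
    exact continuous_subtype_val.mul continuous_const
  have hml : ∀ x, Continuous (ml x) := fun x => by
    apply Continuous.subtype_mk
    exact continuous_const.mul continuous_subtype_val
  -- extension of the two relations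
  have h1' : ∀ (x : A) (y : J), ∑ i, β i (mr x (a i)) y = 0 := by
    intro x y
    have ht : Tendsto (fun n => ∑ i, β i (mr x (a i * u n)) y) atTop
        (𝓝 (∑ i, β i (mr x (a i)) y)) := by
      refine tendsto_finsetSum _ (fun i _ => ?_)
      exact ((((β i).flip y).continuous.comp (hmr x)).tendsto (a i)).comp (hu' i)
    have h0 : ∀ n, ∑ i, β i (mr x (a i * u n)) y = 0 := by
      intro n
      have h3 : ∀ i, mr x (a i * u n) = a i * mr x (u n) := by
        intro i
        apply Subtype.ext
        change (a i : A) * (u n : A) * x = (a i : A) * ((u n : A) * x)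
        rw [mul_assoc]
      simp only [h3]
      exact h1 (mr x (u n)) y
    simp only [h0] at ht
    exact (tendsto_nhds_unique ht tendsto_const_nhds)
  have h2' : ∀ (x : J) (y : A), ∑ i, β i x (ml y (a i)) = ∑ i, lam i (x * ml y (a i)) := by
    intro x y
    have ht : Tendsto (fun n => ∑ i, β i x (ml y (v n * a i))) atTop
        (𝓝 (∑ i, β i x (ml y (a i)))) := by
      refine tendsto_finsetSum _ (fun i _ => ?_)
      exact (((β i x).continuous.comp (hml y)).tendsto (a i)).comp (hv' i)
    have ht2 : Tendsto (fun n => ∑ i, lam i (x * ml y (v n * a i))) atTop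
        (𝓝 (∑ i, lam i (x * ml y (a i)))) := by
      refine tendsto_finsetSum _ (fun i _ => ?_)
      exact (((lam i).continuous.comp (continuous_const.mul (hml y))).tendsto (a i)).comp (hv' i)
    have h0 : ∀ n, ∑ i, β i x (ml y (v n * a i)) = ∑ i, lam i (x * ml y (v n * a i)) := by
      intro n
      have h3 : ∀ i, ml y (v n * a i) = ml y (v n) * a i := by
        intro i
        apply Subtype.ext
        change y * ((v n : A) * (a i : A)) = y * (v n : A) * (a i : A)
        rw [mul_assoc]
      simp only [h3]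
      rw [h2]
      simp only [mul_assoc]
    simp only [h0] at ht
    exact (tendsto_nhds_unique ht ht2)
  have key := hA.crit (fun i => (a i : A))
    (fun i => (((ContinuousLinearMap.compL ℂ A J ℂ).flip P).comp (β i)).comp P
      + (mulForm ((lam i).comp P)).comp (ContinuousLinearMap.id ℂ A - QQ P))
    (fun i => (lam i).comp P) (fun x y => ?_) (fun x y => ?_)
  · have h3 : ∀ i, ((lam i).comp P) (a i : A) = lam i (a i) := by
      intro i
      change lam i (P (a i : A)) = _
      rw [hP]
    simpa only [h3] using key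
  · change ∑ i, (β i (P ((a i : A) * x)) (P y)
      + lam i (P (((a i : A) * x - (P ((a i : A) * x) : A)) * y))) = 0
    have h3 : ∀ i, P ((a i : A) * x) = mr x (a i) := fun i => hP (mr x (a i))
    have h4 : ∀ i, (a i : A) * x - (mr x (a i) : A) = 0 := fun i => sub_self _
    simp only [h3, h4, zero_mul, map_zero, add_zero]
    exact h1' x (P y)
  · change ∑ i, (β i (P x) (P (y * (a i : A)))
      + lam i (P ((x - (P x : A)) * (y * (a i : A))))) = ∑ i, lam i (P (x * y * (a i : A)))
    have h3 : ∀ i, P (y * (a i : A)) = ml y (a i) := fun i => hP (ml y (a i))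
    have h4 : ∀ i, P ((x - (P x : A)) * (y * (a i : A)))
        = P (x * y * (a i : A)) - (P x) * ml y (a i) := by
      intro i
      rw [sub_mul, map_sub, mul_assoc]
      congr 1
      exact hP ((P x) * ml y (a i))
    simp only [h3, h4, map_sub]
    rw [Finset.sum_add_distrib, h2', Finset.sum_sub_distrib]
    ring

end

end Pool.Agent.Results.MP_b29958_an.ComplementedIdeal
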